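import Pool.Agent.Lib_MP_bed364_nt.Main

set_option autoImplicit false

namespace Pool.Agent.Results.MP_bed364_nt.FifteenCubes

/-- An e-perfect number which is not divisible by `3` is divisible by the cubes of at least `15`
odd primes. -/
theorem result (n : ℕ) (hn : 0 < n) (h3 : ¬ 3 ∣ n)
    (h : (∑ d ∈ n.divisors.filter
      (fun d => ∀ p ∈ n.primeFactors, d.factorization p ∣ n.factorization p), d) = 2 * n) :
    15 ≤ (n.primeFactors.filter (fun p => p ≠ 2 ∧ p ^ 3 ∣ n)).card := by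
  have h1 : 15 ≤ (Pool.Agent.EP364.TT n).card := Pool.Agent.EP364.main hn.ne' h3 h
  refine h1.trans (Finset.card_le_card fun p hp => ?_)
  obtain ⟨hp1, hp2, hp3⟩ := Pool.Agent.EP364.mem_TT.1 hp
  rw [Finset.mem_filter]
  have hdvd : p ^ 3 ∣ n := (hp1.pow_dvd_iff_le_factorization hn.ne').2 hp3
  exact ⟨Nat.mem_primeFactors.2 ⟨hp1, (dvd_pow_self p (by norm_num)).trans hdvd, hn.ne'⟩, hp2,
    hdvd⟩

end Pool.Agent.Results.MP_bed364_nt.FifteenCubes
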