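import Pool.Agent.Lib_MP_bed364_mp.Final

/-!
# MP_bed364_nt: e-perfect numbers not divisible by `3` have many prime factors
-/

set_option autoImplicit false

namespace Pool.Agent.Results.MP_bed364_nt.ManyPrimes

/-- Let `n` be an e-perfect number (the sum of its exponential divisors is `2 n`) which is not divisible
by `3`. Then `2 ^ 6127` divides `n` and at least `3775` primes divide `n` exactly twice. -/
theorem result (n : ℕ) (hn : 0 < n) (h3 : ¬ 3 ∣ n)
    (h : (∑ d ∈ n.divisors.filter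
      (fun d => ∀ p ∈ n.primeFactors, d.factorization p ∣ n.factorization p), d) = 2 * n) :
    2 ^ 6127 ∣ n ∧ 3775 ≤ (n.primeFactors.filter (fun p => p ^ 2 ∣ n ∧ ¬ p ^ 3 ∣ n)).card := by
  obtain ⟨h1, h2⟩ := Pool.Agent.EPM.main hn.ne' h3 h
  refine ⟨(Nat.prime_two.pow_dvd_iff_le_factorization hn.ne').2 h1,
    h2.trans (Finset.card_le_card fun p hp => ?_)⟩
  obtain ⟨hp1, hp2, hp3⟩ := Pool.Agent.EP364.mem_AA.1 hp
  rw [Finset.mem_filter]
  have hdvd : p ^ 2 ∣ n := (hp1.pow_dvd_iff_le_factorization hn.ne').2 hp3.ge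
  refine ⟨Nat.mem_primeFactors.2 ⟨hp1, (dvd_pow_self p (by norm_num)).trans hdvd, hn.ne'⟩, hdvd, ?_⟩
  intro h4
  have := (hp1.pow_dvd_iff_le_factorization hn.ne').1 h4
  omega

end Pool.Agent.Results.MP_bed364_nt.ManyPrimes
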